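import Pool.Agent.MP_bc14f3_gt.Z66.Main
import Pool.Agent.MP_bc14f3_gt.Z66.Conv

namespace Pool.Agent.Results.MP_bc14f3_gt.ExactZeros

open Pool.Agent.MP_bc14f3_gt Polynomial

/-- A nonzero complex number is a zero of the Alexander polynomial of an alternating knot if and
only if it is a root of an integer polynomial with value `±1` at `1` and no negative real root. -/
theorem result (α : ℂ) (h0 : α ≠ 0) :
    (∃ (w : List Move) (o : Pt w → Bool) (D : ℤ[X]),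
      IsKnot w ∧ IsAlternating w ∧ IsOrientation o ∧ IsAlexander o D ∧ D ≠ 0 ∧ aeval α D = 0) ↔
      ∃ f : ℤ[X], (f.eval 1 = 1 ∨ f.eval 1 = -1) ∧ (∀ x : ℝ, x < 0 → aeval x f ≠ 0) ∧
        aeval α f = 0 :=
  ⟨fun ⟨_, _, D, h1, h2, _, h4, _, h6⟩ => ⟨D, Z66.conv_one h1 h4, Z66.conv_neg h1 h2 h4, h6⟩,
    fun ⟨f, h1, h2, h3⟩ => Z66.top f α (Int.isUnit_iff.2 h1) h2 h0 h3⟩

end Pool.Agent.Results.MP_bc14f3_gt.ExactZeros
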